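import Pool.Agent.LGI.Mach3

/-!
# MP_44458a_lc: insertion into 2-dense m-ary search trees in O(log N) steps, for every m ≥ 3

`LGI.LogInsertion m r` (file `Pool/Agent/LGI/Mach.lean`) says that for the pair `(m, r)` there is an
insertion procedure on a pointer machine with worst case `O(log N)` steps.  The theorem proves it
for `r = 2` and every `m ≥ 3`.

Proof idea.  Neighbouring nodes are repaired by three kinds of operations: two neighbours with more
than `m` children altogether become (saturated, unsaturated) or (unsaturated, saturated) or one saturated
node; three unsaturated neighbours with more than `2 m` children become (saturated, unsaturated, saturated) or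
two saturated nodes.  After reductions without recursive calls (merging unsaturated neighbours) each
operation needs at most one operation one level lower.
-/

namespace Pool.Agent.Results.MP_44458a_lc.LogInsertTwoDense

open LGI

theorem result : ∀ m : ℕ, 3 ≤ m → LogInsertion m 2 := fun _ hm => logInsertion hm

end Pool.Agent.Results.MP_44458a_lc.LogInsertTwoDense
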