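import Pool.Agent.DMS.All2
import Pool.Agent.DMS.E1

/-!
# MP_44458a_lc: no logarithmic insertion in r-dense m-ary search trees with m - r ≤ m / 10000

For all such pairs there are arbitrarily large `N`, an `r`-dense `m`-ary search tree `T` with `N` keys and a key `x`
such that every `r`-dense `m`-ary search tree with the keys of `T` and `x` has at least `N ^ c` internal nodes whose
list of keys is not the list of keys of an internal node of `T`.

Proof idea.  The hard tree has hierarchical words: around certain cuts of each level the tree has `2 g` unsaturated
nodes (`g = m - r`) close together, `g` in each of two neighbouring nodes of the next level.  A node of `T'` which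
covers such a cut has at most `g` unsaturated children, so it must deviate from `T` at two places of the next lower
level (an induction with discrepancies of the numbers of nodes).  So a deviation of level `l` costs `2 ^ (l - 2)` new nodes of
level `1`; and if there is no deviation in the upper levels, the new leaf travels to the root, which is
impossible.  Paper proofs of all steps: `Pool/Agent/DMS/StA.lean` to `StE.lean`.
-/

namespace Pool.Agent.Results.MP_44458a_lc.NoLogarithmicInsertion

open DMS

theorem result : ∀ m r : ℕ, r < m → 10000 * (m - r) ≤ m →
    (∀ S : Finset ℕ, ∃ (h : ℕ) (T : Tree), IsDense m r h T ∧ ∀ k, k ∈ inorder h T ↔ k ∈ S) ∧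
    ∃ c : ℝ, 0 < c ∧ ∀ N₀ : ℕ, ∃ (h : ℕ) (T : Tree) (x : ℕ),
      IsDense m r h T ∧ N₀ ≤ (inorder h T).length ∧ x ∉ inorder h T ∧
      ∀ (h' : ℕ) (T' : Tree), IsDense m r h' T' →
        (∀ k, k ∈ inorder h' T' ↔ k = x ∨ k ∈ inorder h T) →
        ((inorder h T).length : ℝ) ^ c ≤ newNodes h T h' T' :=
  fin_of thm_E1 all_MAIN

end Pool.Agent.Results.MP_44458a_lc.NoLogarithmicInsertion
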